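import Pool.Agent.J6H4.TR.Final
import Pool.Agent.J6H4.TR.Conc

/-!
# Tilting presentations of equivariant modules with good filtration

Let `G` be a connected reductive group over an algebraically closed field `k` of characteristic `p`, `S`
a finitely generated commutative `k`-algebra with a rational action of `G` by algebra automorphisms,
and `M` a finitely generated `(G, S)`-module; suppose that `S` and `M` have good filtrations. Then there
are a tilting module `T` and a surjective morphism `S ⊗ T → M` of `(G, S)`-modules, the kernel of which
has a good filtration. This is a positive answer to the question of the problem.

Here `G` is a subgroup of `GL_n(k)` and `B` is a subgroup of `G`, and the following published theorems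
on connected reductive groups, with `B` a Borel subgroup and `U` the set of its unipotent elements, are
the hypothesis of the theorem (the structure `Facts` in `Pool.Agent.J6H4.TR.Defs`):

* the induced modules `∇` are finite-dimensional;
* Lie-Kolchin: nonzero rational modules contain `B`-stable lines; and `B` acts diagonalizably on the
  `U`-invariants of a rational module;
* `Ext^1_G(W, M) = 0` if `W` has a (finite) Weyl filtration and `M` has a good filtration (Cline, Parshall,
  Scott, van der Kallen);
* Donkin's criterion: a rational module `K` of countable dimension has a good filtration if
  `Ext^1_G(Δ, K) = 0` for all Weyl modules `Δ`; and the quotient of a module with a good filtration by a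
  submodule with a good filtration has a good filtration;
* Donkin, Mathieu: tensor products of modules with good filtrations have good filtrations;
* Ringel, Donkin: each Weyl module is a submodule of a tilting module such that the quotient has a Weyl
  filtration;
* Hadžiev, Grosshans: if `A` is a finitely generated commutative `k`-algebra with a rational action of
  `G` then the algebra `A^U` is finitely generated.

All other notions are concrete: the regular functions on `G` are the polynomials in the entries of `g`
and `g⁻¹`, `V` is rational if `g v = ∑ f_i(g) w_i` with regular functions `f_i`, the induced modules are
the spaces of all regular functions with `f(g b) = χ(b) f(g)`, `χ` a regular character of `B`, and the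
Weyl modules are their duals.

Proof. By Grosshans' theorem for the algebra `S ⊕ M`, `M² = 0`, the module `M^U` is generated over `S^U`
by finitely many elements, which are sums of `B`-semi-invariants `m_i`. By Frobenius reciprocity (the
universal property of the Weyl modules, proved here) `m_i` is the image of the generator of a Weyl module
`Δ_i` under a homomorphism `Δ_i → M`, which extends to a tilting module `T_i ⊇ Δ_i`, as
`Ext^1(T_i / Δ_i, M) = 0`. Let `T` be the direct sum of the `T_i`, and `φ : S ⊗ T → M` the `S`-linear
extension. Then `φ` maps `(S ⊗ T)^U` onto `M^U`. So every homomorphism of a Weyl module to the image `N`
of `φ` lifts to `S ⊗ T`. Therefore `Ext^1(Δ, ker φ) = 0` for all `Δ`, and `ker φ` has a good filtration.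
So `N` has a good filtration, and homomorphisms from Weyl modules to `M / N` lift to `M`. As their images
are generated by elements of `M^U ⊆ N`, they are zero. Hence `M / N` has no `B`-stable line, and `N = M`.
-/

set_option autoImplicit false

namespace Pool.Agent.Results.MP_720b6c_al.TiltingPresentations

open TensorProduct Pool.Agent.J6H4.TR

/-- **Tilting presentations of equivariant modules with good filtration.** Let `k` be a field of
characteristic `p`, `G` a subgroup of `GL_n(k)` and `B` a subgroup of `G` which satisfy `Facts` (published
theorems if `k` is algebraically closed, `G` is connected reductive and `B` is a Borel subgroup). Let `S`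
be a finitely generated commutative `k`-algebra, on which `G` acts rationally by algebra automorphisms,
with a good filtration, and let `M` be a finitely generated `(G, S)`-module with a good filtration. Then
there are a tilting module `T` and a surjective homomorphism `φ : S ⊗ T → M` of `(G, S)`-modules, such that
the kernel of `φ` has a good filtration. -/
theorem result (p : ℕ) [Fact p.Prime] (k : Type) [Field k] [CharP k p] (n : ℕ)
    (G : Subgroup (GL (Fin n) k)) (B : Subgroup G)
    (facts : Facts (regular G) (regular_transStable G) B (unipotent B))
    -- the algebra `S`
    (S : Type) [CommRing S] [Algebra k S] [Algebra.FiniteType k S] (σ : Representation k G S)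
    (hS : ByAutomorphisms σ) (hSr : Rational (regular G) σ)
    (hSg : Good (regular_transStable G) B σ)
    -- the `(G, S)`-module `M`
    (M : Type) [AddCommGroup M] [Module k M] [Module S M] [IsScalarTower k S M] [Module.Finite S M]
    (μ : Representation k G M) (hM : ∀ (g : G) (s : S) (m : M), μ g (s • m) = σ g s • μ g m)
    (hMr : Rational (regular G) μ) (hMg : Good (regular_transStable G) B μ) :
    ∃ (T : Type) (_ : AddCommGroup T) (_ : Module k T) (τ : Representation k G T)
      (φ : S ⊗[k] T →ₗ[S] M),
      Tilting (regular_transStable G) B τ ∧
      (∀ (g : G) (x : S ⊗[k] T), φ (σ.tprod τ g x) = μ g (φ x)) ∧
      Function.Surjective φ ∧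
      KerGood (regular_transStable G) B (σ.tprod τ) (φ.restrictScalars k) :=
  presentation (basics G p B) facts hSr hMr hS hM hSg hMg

end Pool.Agent.Results.MP_720b6c_al.TiltingPresentations
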